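import Pool.Agent.H30.VMR.Stm

/-!
# Module E4: linearity

At a good point the tangent vectors of the conics form a union of finitely many linear subspaces
of dimension at most two, and the tangent space has dimension four.
-/

set_option autoImplicit false

noncomputable section

namespace Pool.VMR

open MvPolynomial

/-- forget `w`, as a linear map -/
def prl : V 6 →ₗ[ℂ] V 6 where
  toFun := pr
  map_add' x y := by
    ext i
    by_cases hi : i = 6
    · subst hi
      simp [pr]
    · simp [pr, hi]
  map_smul' c x := by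
    ext i
    by_cases hi : i = 6
    · subst hi
      simp [pr]
    · simp [pr, hi]

/-- the third polar form, as a linear form -/
def b3l (x : V 6) : V 6 →ₗ[ℂ] ℂ where
  toFun := b3 x
  map_add' y z := by
    simp only [b3, Pi.add_apply]
    ring
  map_smul' c y := by
    simp only [b3, Pi.smul_apply, smul_eq_mul, RingHom.id_apply]
    ring

theorem pr_apply_of_ne (x : V 6) {i : Fin 7} (hi : i ≠ 6) : pr x i = x i := by
  simp [pr, hi]

theorem pr_six (x : V 6) : pr x 6 = 0 := by simp [pr]

/-- the linear subspace of the tangent vectors of the conics over one line -/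
def Lz (x ζ : V 6) : Submodule ℂ (V 6) :=
  (Submodule.span ℂ {pr x, ζ}).comap prl ⊓ LinearMap.ker (b3l x)

theorem mem_Lz {x ζ v : V 6} :
    v ∈ Lz x ζ ↔ pr v ∈ Submodule.span ℂ {pr x, ζ} ∧ b3 x v = 0 := by
  simp only [Lz, Submodule.mem_inf, Submodule.mem_comap, LinearMap.mem_ker]
  rfl

theorem finrank_Lz (x ζ : V 6) (hx : x 6 ≠ 0) : Module.finrank ℂ (Lz x ζ) ≤ 2 := by
  classical
  have h2 : Module.finrank ℂ (Submodule.span ℂ ({pr x, ζ} : Set (V 6))) ≤ 2 := by
    have := finrank_span_finset_le_card (R := ℂ) ({pr x, ζ} : Finset (V 6))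
    rw [Finset.coe_insert, Finset.coe_singleton] at this
    exact this.trans Finset.card_le_two
  have hinj : Function.Injective
      ((prl.restrict (p := Lz x ζ) (q := Submodule.span ℂ {pr x, ζ})
        fun v hv => (mem_Lz.mp hv).1)) := by
    rw [← LinearMap.ker_eq_bot, LinearMap.ker_eq_bot']
    intro v hv
    have h0 : pr v.1 = 0 := congrArg Subtype.val hv
    have hz : ∀ i : Fin 7, i ≠ 6 → v.1 i = 0 := fun i hi => by
      rw [← pr_apply_of_ne v.1 hi, h0]
      rfl
    have hb := (mem_Lz.mp v.2).2
    simp only [b3] at hb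
    rw [hz 4 (by decide), hz 0 (by decide), hz 5 (by decide), hz 1 (by decide),
      hz 3 (by decide)] at hb
    have h6 : v.1 6 = 0 := by
      have : x 6 * v.1 6 = 0 := by linear_combination (-1 / 2 : ℂ) * hb
      exact (mul_eq_zero.mp this).resolve_left hx
    apply Subtype.ext
    ext i
    by_cases hi : i = 6
    · subst hi
      exact h6
    · exact hz i hi
  exact (LinearMap.finrank_le_finrank_of_injective hinj).trans h2

/-- MODULE E4 -/
theorem linS : LinS := by
  classical
  intro hs hp x hx
  obtain ⟨hc, h6, S, hS, hS1, hS2⟩ := hx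
  have hL : Lc x = ⋃ L ∈ S.image (Lz x), (L : Set (V 6)) := by
    ext v
    simp only [Finset.mem_image, Set.iUnion_exists, Set.biUnion_and', Set.iUnion_iUnion_eq_right,
      Set.mem_iUnion, SetLike.mem_coe, mem_Lz, exists_prop]
    constructor
    · rintro ⟨h1, h2, h3, h4, h5⟩
      have hp1 : LineDir x (pr v) := by
        refine ⟨pr_six v, ?_, ?_, ?_, ?_⟩
        · rw [← h1]
          simp [f1, pr]
        · rw [← h2]
          simp [f2, pr]
        · rw [← h3]
          simp [b1, pr]
        · rw [← h4]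
          simp [b2, pr]
      obtain ⟨ζ, hζ, hm⟩ := hS2 _ hp1
      exact ⟨ζ, hζ, hm, h5⟩
    · rintro ⟨ζ, hζ, hm, h5⟩
      obtain ⟨g6, g1, g2, g3, g4⟩ := (hS1 ζ hζ).1
      obtain ⟨a, b, hab⟩ := Submodule.mem_span_pair.mp hm
      have hv : ∀ i : Fin 7, i ≠ 6 → v i = a * x i + b * ζ i := by
        intro i hi
        have := congrFun hab i
        rw [pr_apply_of_ne v hi] at this
        rw [← this]
        simp [pr_apply_of_ne x hi]
      have v0 := hv 0 (by decide)
      have v1 := hv 1 (by decide)
      have v2 := hv 2 (by decide)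
      have v3 := hv 3 (by decide)
      have v4 := hv 4 (by decide)
      have v5 := hv 5 (by decide)
      have c1 := hc.2.1
      have c2 := hc.2.2.1
      simp only [f1, f2, b1, b2] at g1 g2 g3 g4 c1 c2
      refine ⟨?_, ?_, ?_, ?_, h5⟩
      · simp only [f1]
        rw [v0, v1, v2, v3, v4]
        linear_combination a ^ 2 * c1 + b ^ 2 * g1 + a * b * g3
      · simp only [f2]
        rw [v0, v1, v2, v3, v4, v5]
        linear_combination a ^ 2 * c2 + b ^ 2 * g2 + a * b * g4
      · simp only [b1]
        rw [v0, v1, v2, v3, v4]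
        linear_combination 2 * a * c1 + b * g3
      · simp only [b2]
        rw [v0, v1, v2, v3, v4, v5]
        linear_combination 2 * a * c2 + b * g4
  refine ⟨⟨_, hL⟩, ?_⟩
  intro hT
  set T : Submodule ℂ (V 6) := (X3 hs hp).tan x with hTd
  have hx3 : x ∈ (X3 hs hp).cone := by
    rw [cone_X3]
    exact hc
  have h4 : Module.finrank ℂ T = 4 := (X3 hs hp).smooth x hx3.1 hx3.2
  set S' : Finset (Submodule ℂ T) := (S.image (Lz x)).image fun L => L.comap T.subtype with hS'
  have hcov : ⋃ L ∈ S', ((L : Submodule ℂ T) : Set T) = Set.univ := by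
    rw [Set.eq_univ_iff_forall]
    intro v
    have hv : (v : V 6) ∈ Lc x := by
      rw [hT]
      exact v.2
    rw [hL] at hv
    simp only [hS', Finset.mem_image, Set.mem_iUnion, exists_prop] at hv ⊢
    obtain ⟨L, ⟨ζ, hζ, rfl⟩, hvL⟩ := hv
    exact ⟨_, ⟨_, ⟨ζ, hζ, rfl⟩, rfl⟩, hvL⟩
  by_cases htop : (⊤ : Submodule ℂ T) ∈ S'
  · simp only [hS', Finset.mem_image] at htop
    obtain ⟨_, ⟨ζ, hζ, rfl⟩, hζ2⟩ := htop
    have hle : T ≤ Lz x ζ := by
      intro v hv
      have : (⟨v, hv⟩ : T) ∈ (Lz x ζ).comap T.subtype := by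
        rw [hζ2]
        trivial
      exact this
    have h5 := Submodule.finrank_mono hle
    have h6' := finrank_Lz x ζ h6
    omega
  · exact Subspace.biUnion_ne_univ_of_top_notMem htop hcov

end Pool.VMR
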